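import Pool.Agent.DC.Transfer

/-!
# MP_b05a29_gt, Q1 (full answer: the statement is true)

No Riemannian metric of uniformly positive scalar curvature on a finite cover of moduli space lies
in the quasi-isometry class of the Teichmueller metric. All definitions are in
`Pool/Agent/DC/Moduli.lean`, with `Pool/Agent/DC/Std.lean` (surface group) and
`Pool/Agent/DC/QC.lean` (quasiconformal maps).
-/

open scoped ENNReal
open Set Pool.Agent.Moduli

namespace Pool.Agent.Results.MP_b05a29_gt.NoPositiveScalar

/-- Let `3 g - 3 + n ≥ 1`, let `Λ` be a subgroup of finite index of the extended mapping class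
group of the surface of genus `g` with `n` punctures, and let `h` be a Riemannian metric on
`T(S)/Λ` (a `Λ`-invariant smooth metric on Teichmueller space) whose scalar curvature is at least
`c > 0`. Then the distance of `T(S)/Λ` induced by the Teichmueller metric is not bounded by
`K * d_h + K`, for any `K`. Neither completeness nor finite volume of `h` is assumed. -/
theorem result (g n : ℕ) (hgn : 4 ≤ 3 * g + n)
    (Λ : Subgroup (MCG g n)) (hΛ : Λ.FiniteIndex)
    (Ψ : Teich g n ≃ E (dimT g n)) (hΨ : IsSmoothChart Ψ)
    (h : E (dimT g n) → Matrix (Fin (dimT g n)) (Fin (dimT g n)) ℝ)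
    (hh : IsMetric h) (hinv : Invariant Ψ Λ h)
    (c : ℝ) (hc : 0 < c) (hs : ∀ p, c ≤ scal h p) :
    ¬ ∃ K : ℝ, ∀ X Y : Teich g n,
      qTeichDist Λ X Y ≤ ENNReal.ofReal K * qRiemDist Ψ Λ h X Y + ENNReal.ofReal K :=
  main g n hgn Λ hΛ Ψ hΨ h hh hinv c hc hs

end Pool.Agent.Results.MP_b05a29_gt.NoPositiveScalar
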